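import Pool.Agent.H25.BCE.Stmts

/-!
Module LA3 of the board `bce` (MP_696a38_gt): fundamental domain of the lattice.
-/

set_option autoImplicit false

namespace Pool.Agent.H74.BCE

open scoped ContDiff Topology
open Pool.Agent.H25.BCE
open Pool.Agent.H73

theorem lin_smul (n : ℤ) (c : ℝ) (a : ℝ × ℝ) : lin n (c • a) = c * lin n a := by
  unfold lin
  simp only [Prod.smul_fst, Prod.smul_snd, smul_eq_mul]
  ring

theorem lin_cont (n : ℤ) : Continuous (lin n) := by
  unfold lin
  fun_prop

theorem lin_inj {a : ℝ × ℝ} (h0 : lin 0 a = 0) (h1 : lin 1 a = 0) : a = 0 := by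
  rw [lin_zero] at h0
  rw [lin_one] at h1
  unfold cA cB at h1
  have hs1 := sqrt2_gt
  have h2 : √2 * (a.2 - a.1) = 0 := by linarith
  rcases mul_eq_zero.1 h2 with h | h
  · exact absurd h (by linarith)
  · refine Prod.ext ?_ ?_
    · simp only [Prod.fst_zero]; linarith
    · simp only [Prod.snd_zero]; linarith

theorem LA3_thm : LA3Stmt := by
  refine ⟨?_, ?_, ?_, ?_⟩
  · rintro a ha y ⟨h1, h2, h3, h4⟩ ⟨h5, h6, h7, h8⟩
    obtain ⟨⟨m, hm⟩, ⟨n, hn⟩⟩ := (mem_Gam 0).1 ha
    rw [show (0 : ℤ) + 1 = 1 by ring] at hn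
    rw [lin_add, hm] at h5 h6
    rw [lin_add, hn] at h7 h8
    have k1 : (-1 : ℝ) < m := by linarith
    have k2 : (m : ℝ) < 1 := by linarith
    have k3 : (-1 : ℝ) < n := by linarith
    have k4 : (n : ℝ) < 1 := by linarith
    have k5 : (-1 : ℤ) < m := by exact_mod_cast k1
    have k6 : m < 1 := by exact_mod_cast k2
    have k7 : (-1 : ℤ) < n := by exact_mod_cast k3
    have k8 : n < 1 := by exact_mod_cast k4
    have k9 : m = 0 := by omega
    have k10 : n = 0 := by omega
    apply lin_inj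
    · rw [hm, k9]; simp
    · rw [hn, k10]; simp
  · intro x
    set X := lin 0 x with hX
    set Y := lin 1 x with hY
    set m : ℤ := ⌊X⌋ with hm
    set n : ℤ := ⌊Y⌋ with hn
    set a : ℝ × ℝ := (-(((m:ℝ) + ((m:ℝ) - n) / √2) / 2), -(((m:ℝ) - ((m:ℝ) - n) / √2) / 2)) with ha
    have hs : √2 ≠ 0 := by have := sqrt2_gt; positivity
    have h0 : lin 0 a = -m := by
      rw [lin_zero, ha]; simp only; ring
    have h1 : lin 1 a = -n := by
      rw [lin_one, ha]
      simp only
      unfold cA cB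
      field_simp
      ring
    refine ⟨a, ?_, ?_⟩
    · rw [mem_Gam 0]
      refine ⟨⟨-m, by rw [h0]; push_cast; ring⟩, ⟨-n, ?_⟩⟩
      rw [show (0:ℤ) + 1 = 1 by ring, h1]; push_cast; ring
    · have e0 : lin 0 (x + a) = X - m := by rw [lin_add, h0]; ring
      have e1 : lin 1 (x + a) = Y - n := by rw [lin_add, h1]; ring
      have b0 : 0 ≤ X - m := by rw [hm]; have := Int.floor_le X; linarith
      have b0' : X - m < 1 := by rw [hm]; have := Int.lt_floor_add_one X; linarith
      have b1 : 0 ≤ Y - n := by rw [hn]; have := Int.floor_le Y; linarith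
      have b1' : Y - n < 1 := by rw [hn]; have := Int.lt_floor_add_one Y; linarith
      -- the centre
      set c : ℝ × ℝ := (1 / 4, 1 / 4) with hc
      have c0 : lin 0 c = 1 / 2 := by rw [lin_zero, hc]; norm_num
      have c1 : lin 1 c = 1 / 2 := by
        rw [lin_one, hc]; unfold cA cB; ring
      set z := x + a with hz
      have hcl : z ∈ closure (Set.range fun k : ℕ =>
          (1 - 1 / ((k : ℝ) + 1)) • z + (1 / ((k : ℝ) + 1)) • c) := by
        apply mem_closure_of_tendsto (b := Filter.atTop)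
          (f := fun k : ℕ => (1 - 1 / ((k : ℝ) + 1)) • z + (1 / ((k : ℝ) + 1)) • c)
        · have t1 := tendsto_one_div_add_atTop_nhds_zero_nat (𝕜 := ℝ)
          have t2 : Filter.Tendsto (fun k : ℕ => (1 : ℝ) - 1 / ((k : ℝ) + 1)) Filter.atTop
              (𝓝 (1 - 0)) := tendsto_const_nhds.sub t1
          have t3 := (t2.smul_const z).add (t1.smul_const c)
          simpa using t3
        · exact Filter.Eventually.of_forall fun k => ⟨k, rfl⟩
      refine closure_mono ?_ hcl
      rintro _ ⟨k, rfl⟩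
      simp only
      have hk : (0 : ℝ) < 1 / ((k : ℝ) + 1) := by positivity
      have hk1 : 1 / ((k : ℝ) + 1) ≤ 1 := by
        rw [div_le_one (by positivity)]
        have : (0 : ℝ) ≤ k := Nat.cast_nonneg k
        linarith
      set t := 1 / ((k : ℝ) + 1) with ht
      have l0 : lin 0 ((1 - t) • z + t • c) = (1 - t) * (X - m) + t * (1 / 2) := by
        rw [lin_add, lin_smul, lin_smul, c0, e0]
      have l1 : lin 1 ((1 - t) • z + t • c) = (1 - t) * (Y - n) + t * (1 / 2) := by
        rw [lin_add, lin_smul, lin_smul, c1, e1]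
      refine ⟨?_, ?_, ?_, ?_⟩
      · rw [l0]; nlinarith [mul_nonneg (sub_nonneg.2 hk1) b0]
      · rw [l0]; nlinarith [mul_nonneg (sub_nonneg.2 hk1) (sub_nonneg.2 b0'.le)]
      · rw [l1]; nlinarith [mul_nonneg (sub_nonneg.2 hk1) b1]
      · rw [l1]; nlinarith [mul_nonneg (sub_nonneg.2 hk1) (sub_nonneg.2 b1'.le)]
  · have c0 := lin_cont 0
    have c1 := lin_cont 1
    exact (isOpen_lt continuous_const c0).inter ((isOpen_lt c0 continuous_const).inter
      ((isOpen_lt continuous_const c1).inter (isOpen_lt c1 continuous_const)))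
  · refine (Metric.isBounded_closedBall (x := (0 : ℝ × ℝ)) (r := 2)).subset ?_
    rintro y ⟨h1, h2, h3, h4⟩
    rw [lin_zero] at h1 h2
    rw [lin_one] at h3 h4
    unfold cA cB at h3 h4
    have hs1 := sqrt2_gt
    have e3 : |y.2 - y.1| ≤ 1 := by
      have h5 : |√2 * (y.2 - y.1)| ≤ 1 := by rw [abs_le]; constructor <;> nlinarith
      rw [abs_mul, abs_of_pos (by linarith)] at h5
      nlinarith [abs_nonneg (y.2 - y.1)]
    rw [abs_le] at e3
    rw [mem_closedBall_zero_iff, Prod.norm_def, max_le_iff, Real.norm_eq_abs, Real.norm_eq_abs]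
    constructor <;> rw [abs_le] <;> constructor <;> linarith [e3.1, e3.2]

end Pool.Agent.H74.BCE
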