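import Pool.Agent.H25.BCE.Stmts

/-!
Module PER of the board `bce` (MP_696a38_gt): periodisation.
-/

set_option autoImplicit false

namespace Pool.Agent.H74.BCE

open scoped ContDiff Topology Manifold
open Pool.Agent.H25.BCE
open Pool.Agent.H73 (P V ex ey pb solA solG mu0 Gam lin)

theorem PER_thm : PERStmt := by
  intro ι T W f hW hT hdis hfin hf hsupp
  have hsub : ∀ r, Function.support (fun x => f (T r x)) ⊆ {x | T r x ∈ W} := by
    intro r x hx
    by_contra h
    exact hx (hsupp _ h)
  refine ⟨?_, ?_, ?_⟩
  · rw [← contMDiff_iff_contDiff]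
    apply contMDiff_finsum
    · intro r
      rw [contMDiff_iff_contDiff]
      exact hf.comp (hT r)
    · exact hfin.subset hsub
  · intro r x hx
    apply finsum_eq_single
    intro r' hr'
    apply hsupp
    intro h
    exact hr' (hdis _ _ x h hx)
  · intro x hx
    have : (fun r' => f (T r' x)) = fun _ => 0 := by
      funext r'
      exact hsupp _ (hx r')
    rw [this, finsum_zero]

end Pool.Agent.H74.BCE
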